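import Mathlib
import Pool.Agent.Results.MP_b83b91_an.AmenablePrincipalNonFDC
import Pool.Agent.Y469.FD.Neg

set_option autoImplicit false

/-!
# Principal amenable étale groupoids without finite dynamical complexity, from every group with an
element of infinite order

`HasFDC` (finite dynamical complexity) is that of the starting result; topological groupoids
(`TopGpd`), étale, principal, amenable groupoids and transformation groupoids (`transGpd Γ X`) are
in `Pool/Agent/H317F/Gpd.lean`; `AmenableLC` (topological amenability over a unit space that need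
not be compact) is in `Pool/Agent/Y469/FD/Ind.lean`.
-/

namespace Pool.Agent.Results.MP_b83b91_an.EveryNonTorsionGroup

open H317F Pool.Agent.Y469.FD
open Pool.Agent.Results.MP_b83b91_an.AmenablePrincipalNonFDC

variable {X G : Type} [TopologicalSpace X] [TopologicalSpace G]

/-- The open subgroupoid `H` is weakly decomposable over `𝒞`: the condition is tested only on the
open sets `K` with compact closure contained in `H`, the subgroupoids are generated by the arrows
of `K` with both source and range in `Uᵢ`, and they need only be contained in members of `𝒞`. -/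
def WeaklyDecomposable (𝒢 : TopGpd X G) (𝒞 : Set (Set G)) (H : Set G) : Prop :=
  ∀ K ⊆ H, IsOpen K → IsCompact (closure K) → closure K ⊆ H →
    ∃ U₀ U₁ : Set X, IsOpen U₀ ∧ IsOpen U₁ ∧ 𝒢.units H = U₀ ∪ U₁ ∧
      (∃ C₀ ∈ 𝒞, 𝒢.gen {g ∈ K | 𝒢.s g ∈ U₀ ∧ 𝒢.r g ∈ U₀} ⊆ C₀) ∧
      (∃ C₁ ∈ 𝒞, 𝒢.gen {g ∈ K | 𝒢.s g ∈ U₁ ∧ 𝒢.r g ∈ U₁} ⊆ C₁)

/-- The weakest form of finite dynamical complexity: the whole groupoid lies in every set of open
subgroupoids which contains the relatively compact ones and all weakly decomposable ones. -/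
def HasWeakestFDC (𝒢 : TopGpd X G) : Prop :=
  ∀ 𝒞 : Set (Set G), (∀ H ∈ 𝒞, 𝒢.IsOpenSubgpd H) →
    (∀ H, 𝒢.IsOpenSubgpd H → IsCompact (closure H) → H ∈ 𝒞) →
    (∀ H, 𝒢.IsOpenSubgpd H → WeaklyDecomposable 𝒢 𝒞 H → H ∈ 𝒞) → Set.univ ∈ 𝒞

/-- Finite dynamical complexity implies the weakest form. -/
theorem weakest_of_fdc {𝒢 : TopGpd X G} (h : HasFDC 𝒢) : HasWeakestFDC 𝒢 := by
  intro 𝒞 h1 h2 h3
  refine h 𝒞 ⟨h1, h2, fun H hH hdec => h3 H hH ?_⟩
  intro K hK hKo hKc _
  obtain ⟨U₀, U₁, h4, h5, h6, h7, h8⟩ := hdec K hK hKo hKc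
  refine ⟨U₀, U₁, h4, h5, h6.symm, ⟨_, h7, ?_⟩, ⟨_, h8, ?_⟩⟩
  · exact TopGpd.gen_mono fun g hg => ⟨hg.1, hg.2.1⟩
  · exact TopGpd.gen_mono fun g hg => ⟨hg.1, hg.2.1⟩

/-- The weakest form is the one of the earlier results on group actions. -/
theorem weak_iff {𝒢 : TopGpd X G} :
    HasWeakestFDC 𝒢 ↔ Pool.Agent.Results.MP_17e467_an.FreeZActionNonFDC.HasWeakFDC 𝒢 := by
  constructor
  · intro h 𝒞 h1
    exact h 𝒞 h1.openSubgpd h1.relCompact_mem h1.closed
  · intro h 𝒞 h1 h2 h3
    exact h 𝒞 ⟨h1, h2, h3⟩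

/-- **Theorem.**
1. For every discrete group `Γ` with an element of infinite order there is a free action of `Γ` on
   a locally compact metrizable space `X` (second countable if `Γ` is countable) whose
   transformation groupoid, a principal, amenable, étale, locally compact Hausdorff groupoid, does
   not have finite dynamical complexity, not even in the weakest form.
2. For the group of integers the space `X` can be taken compact; then the groupoid is also amenable
   in the sense of the problem for compact unit spaces. -/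
theorem result :
    (∀ (Γ : Type) [Group Γ] [TopologicalSpace Γ] [DiscreteTopology Γ],
      (∃ g : Γ, ¬ IsOfFinOrder g) →
      ∃ (X : Type) (_ : TopologicalSpace X) (_ : MulAction Γ X) (_ : ContinuousConstSMul Γ X),
        LocallyCompactSpace X ∧ T2Space X ∧ TopologicalSpace.MetrizableSpace X ∧
        LocallyCompactSpace (Γ × X) ∧ T2Space (Γ × X) ∧
        (Countable Γ → SecondCountableTopology X ∧ SecondCountableTopology (Γ × X)) ∧
        (∀ (γ : Γ) (x : X), γ • x = x → γ = 1) ∧
        (transGpd Γ X).Etale ∧ (transGpd Γ X).Principal ∧ AmenableLC (transGpd Γ X) ∧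
        ¬ HasFDC (transGpd Γ X) ∧ ¬ HasWeakestFDC (transGpd Γ X)) ∧
    ∃ (X : Type) (_ : TopologicalSpace X) (_ : MulAction (Multiplicative ℤ) X)
      (_ : ContinuousConstSMul (Multiplicative ℤ) X),
      CompactSpace X ∧ T2Space X ∧ TopologicalSpace.MetrizableSpace X ∧
      (transGpd (Multiplicative ℤ) X).Etale ∧ (transGpd (Multiplicative ℤ) X).Principal ∧
      (transGpd (Multiplicative ℤ) X).Amenable ∧
      ¬ HasFDC (transGpd (Multiplicative ℤ) X) ∧
      ¬ HasWeakestFDC (transGpd (Multiplicative ℤ) X) := by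
  refine ⟨?_, ?_⟩
  · intro Γ _ _ _ h
    obtain ⟨X, i1, i2, i3, h1, h2, h3, h4, h5, h6, -, h7⟩ := negative Γ h
    have h8 : ¬ HasWeakestFDC (transGpd Γ X) := fun h9 => h7 (weak_iff.1 h9)
    refine ⟨X, i1, i2, i3, h1, h2, h3, inferInstance, inferInstance, fun hc => ?_, h5,
      trans_etale _ _, trans_principal _ _ h5, h6, fun h9 => h8 (weakest_of_fdc h9), h8⟩
    have := h4 hc
    exact ⟨h4 hc, inferInstance⟩
  · obtain ⟨X, i1, i2, i3, h1, h2, h3, h4, h5, -, h6⟩ :=
      Pool.Agent.Results.MP_17e467_an.FreeZActionNonFDC.result.2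
    have h7 : ¬ HasWeakestFDC (transGpd (Multiplicative ℤ) X) := fun h8 => h6 (weak_iff.1 h8)
    exact ⟨X, i1, i2, i3, h1, h2, h3, trans_etale _ _, trans_principal _ _ h4, h5,
      fun h8 => h7 (weakest_of_fdc h8), h7⟩

end Pool.Agent.Results.MP_b83b91_an.EveryNonTorsionGroup
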